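import Pool.Agent.helper25.SXQ.AllB
import Pool.Agent.helper25.SX.FinY

set_option autoImplicit false

/-!
# Module FinX: the theorem for nine arbitrary points and any number of small ones

`exactNine`: choose `j` with `1 ≤ 2 * 9 ^ j * ε` (as in `exactEps2`, SX/FinY.lean), `C0` from `exactAllQ j`,
`C = 4 (C0 + 1)`, `Y = C0 * (M + 1)`, `N = d² - ∑ b²` (`std_three`), `ms = univ.val.map m`; the family is
`Bm b + ms` (`map_append'`); the smallest `b i` is moved to the last place. The real exponents as in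
SX/FinY.lean. Then `generic_of_good`.
-/

namespace Pool.Agent.helper25.SXQ

open MvPolynomial Pool.Agent.helper5.NBS Pool.Agent.helper89.Segre Pool.Agent.SH9
  Pool.Agent.helper25.ST Pool.Agent.helper25.SX Pool.Agent.helper25.SXN

private lemma pow_le {ε : ℝ} {j C0 M x : ℕ} (hj1 : 1 ≤ 2 * (9 : ℝ) ^ j * ε)
    (h : ((C0 : ℝ) + 1) * ((M : ℝ) + 1) ^ (5 / 2 + ε) ≤ (x : ℝ)) :
    C0 * (M + 1) ^ (5 * 9 ^ j + 1) ≤ x ^ (2 * 9 ^ j) := by
  have hM1 : (1 : ℝ) ≤ (M : ℝ) + 1 := by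
    have := Nat.cast_nonneg (α := ℝ) M
    linarith
  have hM0 : (0 : ℝ) ≤ (M : ℝ) + 1 := by linarith
  have hCn : (0 : ℝ) ≤ C0 := Nat.cast_nonneg C0
  have hN0 : 2 * 9 ^ j ≠ 0 := by positivity
  have hC1 : (1 : ℝ) ≤ (C0 : ℝ) + 1 := by linarith
  have key : ((C0 * (M + 1) ^ (5 * 9 ^ j + 1) : ℕ) : ℝ) ≤ ((x ^ (2 * 9 ^ j) : ℕ) : ℝ) := by
    have h1 : (((C0 : ℝ) + 1) * ((M : ℝ) + 1) ^ (5 / 2 + ε)) ^ (2 * 9 ^ j) ≤
        (x : ℝ) ^ (2 * 9 ^ j) :=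
      pow_le_pow_left₀ (mul_nonneg (by linarith) (Real.rpow_nonneg hM0 _)) h _
    have h2 : ((M : ℝ) + 1) ^ (5 * 9 ^ j + 1) ≤ (((M : ℝ) + 1) ^ (5 / 2 + ε)) ^ (2 * 9 ^ j) := by
      rw [← Real.rpow_natCast (((M : ℝ) + 1) ^ (5 / 2 + ε)), ← Real.rpow_mul hM0,
        ← Real.rpow_natCast ((M : ℝ) + 1)]
      apply Real.rpow_le_rpow_of_exponent_le hM1
      push_cast
      nlinarith
    have h3 : (C0 : ℝ) ≤ ((C0 : ℝ) + 1) ^ (2 * 9 ^ j) :=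
      le_trans (by linarith) (le_self_pow₀ hC1 hN0)
    push_cast
    calc (C0 : ℝ) * ((M : ℝ) + 1) ^ (5 * 9 ^ j + 1)
        ≤ ((C0 : ℝ) + 1) ^ (2 * 9 ^ j) * (((M : ℝ) + 1) ^ (5 / 2 + ε)) ^ (2 * 9 ^ j) :=
          mul_le_mul h3 h2 (pow_nonneg hM0 _) (pow_nonneg (by linarith) _)
      _ = (((C0 : ℝ) + 1) * ((M : ℝ) + 1) ^ (5 / 2 + ε)) ^ (2 * 9 ^ j) := (mul_pow _ _ _).symm
      _ ≤ _ := h1
  exact_mod_cast key

private lemma sq_le_two_cd {h : ℕ} (m : Fin h → ℕ) :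
    ∑ i, m i ^ 2 ≤ 2 * cd (Finset.univ.val.map m) := by
  have h1 : cd (Finset.univ.val.map m) = ∑ i, kk (m i) := by
    rw [cd, Multiset.map_map]
    rfl
  rw [h1, Finset.mul_sum]
  refine Finset.sum_le_sum fun i _ => ?_
  rw [two_mul_kk]
  nlinarith

/-- `exactAllQ` without the assumption that the last weight is the smallest -/
lemma exactAllQ' (j : ℕ) : ∃ C : ℕ, ∀ (d M Y N : ℕ) (b : Fin 9 → ℕ) (ms : Multiset ℕ),
    (∀ μ ∈ ms, μ ≤ M) →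
    (∀ i j k, i ≠ j → j ≠ k → i ≠ k → b i + b j + b k ≤ d) →
    (∀ i, b i + Y ≤ d) → ∑ i, b i ^ 2 + N = d ^ 2 → C * (M + 1) ≤ Y →
    (C * (M + 1) ^ (5 * 9 ^ j + 1) ≤ N ^ (2 * 9 ^ j) ∨
      C * (M + 1) ^ (5 * 9 ^ j + 1) ≤ cd ms ^ (2 * 9 ^ j)) →
    Good ℂ (tri d) (Bm b + ms) (min (cd (Bm b) + cd ms) (tri d).card) := by
  obtain ⟨C, hC⟩ := exactAllQ j
  refine ⟨C, fun d M Y N b ms hM h3 h2 hN hY hor => ?_⟩
  obtain ⟨i0, -, hi0⟩ := Finset.exists_min_image Finset.univ b Finset.univ_nonempty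
  obtain ⟨σ, hσ⟩ : ∃ σ : Equiv.Perm (Fin 9), σ 8 = i0 := ⟨Equiv.swap 8 i0, Equiv.swap_apply_left _ _⟩
  have hB : Bm (fun i => b (σ i)) = Bm b := by
    have h1 : (Finset.univ : Finset (Fin 9)).val.map σ = (Finset.univ : Finset (Fin 9)).val := by
      have h2 := congrArg Finset.val (Finset.map_univ_equiv σ)
      simp
    calc Bm (fun i => b (σ i)) = ((Finset.univ : Finset (Fin 9)).val.map σ).map b := by
          rw [Multiset.map_map]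
          rfl
      _ = Bm b := by rw [h1]; rfl
  have hG := hC d M Y N (fun i => b (σ i)) ms hM
    (fun i => by
      rw [hσ]
      exact hi0 _ (Finset.mem_univ _))
    (fun i j k hij hjk hik => h3 _ _ _ (fun h => hij (σ.injective h))
      (fun h => hjk (σ.injective h)) (fun h => hik (σ.injective h)))
    (fun i _ => h2 _)
    (by rw [Equiv.sum_comp σ (fun i => b i ^ 2)]; exact hN) hY hor
  rwa [hB] at hG

theorem exactNine (ε : ℝ) (hε : 0 < ε) : ∃ C : ℝ, 0 < C ∧ ∀ (d h M : ℕ) (b : Fin 9 → ℕ)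
    (m : Fin h → ℕ), (∀ i, m i ≤ M) →
    (∀ i j k, i ≠ j → j ≠ k → i ≠ k → b i + b j + b k ≤ d) →
    (∀ i, (b i : ℝ) + C * ((M : ℝ) + 1) ≤ d) →
    (∑ i, (b i : ℝ) ^ 2 + C * ((M : ℝ) + 1) ^ (5 / 2 + ε) ≤ (d : ℝ) ^ 2 ∨
      C * ((M : ℝ) + 1) ^ (5 / 2 + ε) ≤ ∑ i, (m i : ℝ) ^ 2) →
    ∃ Q : MvPolynomial (Fin (9 + h) × Fin 3) ℂ, Q ≠ 0 ∧ ∀ p : Fin (9 + h) → Fin 3 → ℂ,
      eval (fun ij : Fin (9 + h) × Fin 3 => p ij.1 ij.2) Q ≠ 0 →
      Module.finrank ℂ (sys d (9 + h) (Fin.append b m) p) =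
        (d + 2).choose 2 - ∑ k : Fin (9 + h), (Fin.append b m k + 1).choose 2 := by
  obtain ⟨j, hj⟩ := pow_unbounded_of_one_lt (1 / (2 * ε)) (by norm_num : (1 : ℝ) < 9)
  have hj1 : 1 ≤ 2 * (9 : ℝ) ^ j * ε := by
    rw [div_lt_iff₀ (by positivity)] at hj
    nlinarith
  obtain ⟨C0, hC⟩ := exactAllQ' j
  have hC0 : (0 : ℝ) ≤ C0 := Nat.cast_nonneg C0
  refine ⟨4 * ((C0 : ℝ) + 1), by positivity, ?_⟩
  intro d h M b m hm h3 h2 hd
  have hM1 : (1 : ℝ) ≤ (M : ℝ) + 1 := by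
    have := Nat.cast_nonneg (α := ℝ) M
    linarith
  have hX0 : 0 ≤ ((M : ℝ) + 1) ^ (5 / 2 + ε) := Real.rpow_nonneg (by linarith) _
  have H2 : ∀ i, b i + C0 * (M + 1) ≤ d := by
    intro i
    have e0 := h2 i
    have e1 : ((b i + C0 * (M + 1) : ℕ) : ℝ) ≤ (d : ℝ) := by
      push_cast
      nlinarith
    exact_mod_cast e1
  obtain ⟨-, hsq⟩ := std_three h3
  obtain ⟨N, hN⟩ : ∃ N, ∑ i, b i ^ 2 + N = d ^ 2 := ⟨d ^ 2 - ∑ i, b i ^ 2, by omega⟩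
  obtain ⟨ms, hms⟩ : ∃ ms : Multiset ℕ, ms = Finset.univ.val.map m := ⟨_, rfl⟩
  have hle : ∀ μ ∈ ms, μ ≤ M := by
    intro μ hμ
    rw [hms] at hμ
    obtain ⟨i, _, rfl⟩ := Multiset.mem_map.mp hμ
    exact hm i
  have hG := hC d M (C0 * (M + 1)) N b ms hle h3 H2 hN le_rfl (by
    rcases hd with hd | hd
    · left
      refine pow_le hj1 ?_
      have e3 : ∑ i : Fin 9, (b i : ℝ) ^ 2 + (N : ℝ) = (d : ℝ) ^ 2 := by exact_mod_cast hN
      nlinarith [mul_nonneg hC0 hX0]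
    · right
      refine pow_le hj1 ?_
      have e1 := sq_le_two_cd m
      rw [← hms] at e1
      have e2 : ∑ i, (m i : ℝ) ^ 2 ≤ 2 * (cd ms : ℝ) := by exact_mod_cast e1
      nlinarith [mul_nonneg hC0 hX0])
  have hcd : cd (Bm b) + cd ms = ∑ k : Fin (9 + h), (Fin.append b m k + 1).choose 2 := by
    have e1 : cd (Bm b) + cd ms = cd (Bm b + ms) := by
      simp only [cd, Multiset.map_add, Multiset.sum_add]
    rw [e1, hms, ← map_append']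
    exact sumkk_eq (Fin.append b m)
  rw [hcd, card_tri, hms, ← map_append'] at hG
  exact generic_of_good hG

end Pool.Agent.helper25.SXQ
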