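import Pool.Agent.helper25.SXQ.Defs
import Pool.Agent.helper25.ST.FinP
import Pool.Agent.helper25.ST.FinN

set_option autoImplicit false

/-!
# Module FinN: the final configuration with big points, empty case (`finNQ`)

`q = 3 d - ∑ b`, `x = ∑ b² + ∑ m² - d² ≥ 2 q + Δ + 1`, `k = (x + Δ) / (2 q) + 1`: the class
`(d + 3 k; b + k, m)` is nef and its intersection with `(d; b, m)` is `k q - x < 0`.
-/

namespace Pool.Agent.helper25.SXQ

open MvPolynomial Pool.Agent.helper5.NBS Pool.Agent.helper89.Segre Pool.Agent.SH9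
  Pool.Agent.helper25.ST Pool.Agent.helper25.SXN

private lemma numK {d q Δ S : ℕ} {b : Fin 9 → ℕ} (hq : ∑ i, b i + q = 3 * d) (hq0 : 0 < q)
    (h : d ^ 2 + 2 * q + Δ + 1 ≤ ∑ i, b i ^ 2 + S) :
    ∃ k : ℕ, ∑ i, (b i + k) ^ 2 + S + Δ ≤ (d + 3 * k) ^ 2 ∧
      (d + 3 * k) * d < ∑ i, (b i + k) * b i + S := by
  obtain ⟨x, hx⟩ := Nat.exists_eq_add_of_le (show d ^ 2 ≤ ∑ i, b i ^ 2 + S by omega)
  have hx2 : 2 * q + Δ + 1 ≤ x := by omega
  obtain ⟨k, hk⟩ : ∃ k, k = (x + Δ) / (2 * q) + 1 := ⟨_, rfl⟩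
  have h1 : x + Δ < 2 * q * k := by
    rw [hk]
    exact Nat.lt_mul_div_succ _ (by omega)
  have h2 : 2 * q * k ≤ x + Δ + 2 * q := by
    rw [hk, mul_add, mul_one]
    exact Nat.add_le_add_right (Nat.mul_div_le _ _) _
  refine ⟨k, ?_, ?_⟩
  · rw [sum_add_sq]
    have e1 : (d + 3 * k) ^ 2 = d ^ 2 + 2 * k * (3 * d) + 9 * k ^ 2 := by ring
    have e2 : 2 * k * (∑ i, b i + q) = 2 * k * ∑ i, b i + 2 * q * k := by ring
    rw [e1, ← hq, e2]
    omega
  · have e1 : (d + 3 * k) * d = d ^ 2 + k * (3 * d) := by ring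
    have e2 : ∑ i, (b i + k) * b i = ∑ i, b i ^ 2 + k * ∑ i, b i := by
      rw [Finset.mul_sum, ← Finset.sum_add_distrib]
      exact Finset.sum_congr rfl fun i _ => by ring
    have e3 : k * (∑ i, b i + q) = k * ∑ i, b i + q * k := by ring
    have e4 : 2 * q * k = 2 * (q * k) := by ring
    rw [e1, e2, ← hq, e3]
    omega

/-- a nef class with negative intersection -/
private theorem finNK {d k n : ℕ} {b : Fin 9 → ℕ} {m : Fin n → ℕ}
    (hNef : NefP (d + 3 * k) (Fin.append (fun i => b i + k) m))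
    (hD : (d + 3 * k) * d < ∑ i, (b i + k) * b i + ∑ i, m i ^ 2) :
    E d (Finset.univ.val.map (Fin.append b m)) := by
  classical
  obtain ⟨S, hSc, hS0, hSq⟩ := hNef
  obtain ⟨x, hx⟩ := Pool.Agent.helper7.SC.exists_avoid S hSc hS0
  let q : Fin (9 + n) → Fin 2 → ℂ := fun i l => x (i, l)
  have hq : ∀ Q ∈ S, evP q Q ≠ 0 := fun Q hQ => hx Q hQ
  obtain ⟨_, hnef⟩ := hSq q hq
  refine E_of_emp (p := q) ?_
  intro F hF hmem
  by_contra hF0
  have h1 := hnef F hF0
  have h2 : ∑ i, Fin.append (fun i => b i + k) m i * Fin.append b m i ≤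
      ∑ i, Fin.append (fun i => b i + k) m i * mult (q i) F := by
    apply Finset.sum_le_sum
    intro i _
    exact Nat.mul_le_mul le_rfl ((mem_pow_iff_le_mult hF0).mp (hmem i))
  have h3 := Nat.mul_le_mul (le_refl (d + 3 * k)) hF
  have h4 : ∑ i, Fin.append (fun i => b i + k) m i * Fin.append b m i =
      ∑ i, (b i + k) * b i + ∑ i, m i ^ 2 := by
    rw [Fin.sum_univ_add]
    simp only [Fin.append_left, Fin.append_right]
    congr 1
    exact Finset.sum_congr rfl fun i _ => by ring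
  omega

theorem finNQ {d W Δ A w s q : ℕ} {b : Fin 9 → ℕ} {ms : Multiset ℕ} (hW : 1 ≤ W)
    (hNef : NefTQ d b W Δ) (hq : ∑ i, b i + q = 3 * d) (hq0 : 0 < q)
    (hms : ∀ μ ∈ ms, μ + 1 ≤ W) (hA : S1 ms ≤ A) (hw : 3 * A + 3 * Δ + 2 * q + 1 ≤ w)
    (hR : (d + 2).choose 2 < cd (Bm b) + cd ms + S1 ms + Δ)
    (hne : 0 < Multiset.card ms + s)
    (h : w ≤ s ∨ (d + 2).choose 2 + w ≤ cd (Bm b) + cd ms + s) :
    E d (Bm b + (ms + Multiset.replicate s 1)) := by
  classical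
  obtain ⟨n, m, hm⟩ : ∃ n : ℕ, ∃ m : Fin n → ℕ,
      Finset.univ.val.map m = ms + Multiset.replicate s 1 := ⟨_, exists_fin _⟩
  have hn : 0 < n := by
    have h1 : Multiset.card (Finset.univ.val.map m) = n := by simp
    rw [hm, Multiset.card_add, Multiset.card_replicate] at h1
    omega
  have hsum : ∑ i, m i ^ 2 = (ms.map fun μ => μ ^ 2).sum + s := by
    have h1 : ∑ i, m i ^ 2 = ((Finset.univ.val.map m).map fun μ => μ ^ 2).sum := by
      rw [Multiset.map_map]
      rfl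
    rw [h1, hm, Multiset.map_add, Multiset.sum_add, Multiset.map_replicate, Multiset.sum_replicate]
    simp
  have e1 := sq_ge ms
  have e2 := two_choose d
  have e4 := two_cd_Bm b
  have hbig : d ^ 2 + 2 * q + Δ + 1 ≤ ∑ i, b i ^ 2 + ∑ i, m i ^ 2 := by
    rw [hsum]
    have e3 : (d + 1) * (d + 2) = d ^ 2 + 3 * d + 2 := by ring
    rcases h with h | h <;> omega
  have hwt : ∀ i, m i ≤ W := by
    intro i
    have h1 : m i ∈ ms + Multiset.replicate s 1 := by
      rw [← hm]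
      exact Multiset.mem_map_of_mem m (Finset.mem_univ_val i)
    rcases Multiset.mem_add.mp h1 with h2 | h2
    · have := hms _ h2
      omega
    · rw [Multiset.eq_of_mem_replicate h2]
      exact hW
  obtain ⟨k, k1, k2⟩ := numK hq hq0 hbig
  have hP := hNef k n m hn hwt k1
  rw [← hm, ← map_append']
  exact finNK hP k2

end Pool.Agent.helper25.SXQ
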