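import Pool.Agent.helper25.SXN.Cross
import Pool.Agent.helper25.ST.NineReg

set_option autoImplicit false

/-!
# Module CubK: adding the cubic through the nine big points

`cubK`: if the system `(d + 3; b + 1, ms)` is empty then so is `(d; b, ms)`. The cubic exists as
`10 > 9` (`card_le`, `exists_cross`).
-/

namespace Pool.Agent.helper25.SXQ

open MvPolynomial Pool.Agent.helper5.NBS Pool.Agent.helper89.Segre Pool.Agent.SH9
  Pool.Agent.helper25.ST Pool.Agent.helper22.SC Pool.Agent.helper7.SC Pool.Agent.helper25.SXN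

private def ιc (n : ℕ) : Fin (9 + 1) → Fin (9 + n + 1) :=
  Fin.append (fun i : Fin 9 => Fin.castAdd 1 (Fin.castAdd n i)) (fun _ => Fin.natAdd (9 + n) 0)

private lemma ιc_left {n : ℕ} (i : Fin 9) :
    ιc n (Fin.castAdd 1 i) = Fin.castAdd 1 (Fin.castAdd n i) := by
  rw [ιc, Fin.append_left]

private lemma ιc_right {n : ℕ} (i : Fin 1) : ιc n (Fin.natAdd 9 i) = Fin.natAdd (9 + n) 0 := by
  rw [ιc, Fin.append_right]

private lemma ιc_inj {n : ℕ} : Function.Injective (ιc n) := by
  intro x y hxy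
  induction x using Fin.addCases with
  | left x =>
    induction y using Fin.addCases with
    | left y =>
      rw [ιc_left, ιc_left] at hxy
      rw [Fin.castAdd_injective _ _ (Fin.castAdd_injective _ _ hxy)]
    | right y =>
      rw [ιc_left, ιc_right] at hxy
      have h := congrArg Fin.val hxy
      simp only [Fin.val_castAdd, Fin.val_natAdd] at h
      have := x.2
      omega
  | right x =>
    induction y using Fin.addCases with
    | left y =>
      rw [ιc_left, ιc_right] at hxy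
      have h := congrArg Fin.val hxy
      simp only [Fin.val_castAdd, Fin.val_natAdd] at h
      have := y.2
      omega
    | right y =>
      rw [Subsingleton.elim x y]

private lemma no_cubic : ¬ E 3 (Bm (fun _ : Fin 9 => 1)) := by
  intro h
  have h1 := card_le h
  have h2 : cd (Bm (fun _ : Fin 9 => 1)) = 9 := by
    have := two_cd_Bm (fun _ : Fin 9 => 1)
    simp at this
    omega
  rw [h2] at h1
  have h3 : (3 + 2).choose 2 = 10 := by decide
  omega

theorem cubK {d : ℕ} {b : Fin 9 → ℕ} {ms : Multiset ℕ}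
    (h : E (d + 3) (Bm (fun i => b i + 1) + ms)) : E d (Bm b + ms) := by
  obtain ⟨n, m, hm⟩ : ∃ n : ℕ, ∃ m : Fin n → ℕ, Finset.univ.val.map m = ms :=
    ⟨_, exists_fin ms⟩
  subst hm
  rw [← map_append'] at h ⊢
  obtain ⟨Q, hQ0, hQ⟩ := h.generic
  obtain ⟨Φ, hΦ0, hΦ⟩ := exists_cross no_cubic
  obtain ⟨T1, hT1, hT10, h1⟩ := pull_gen (Fin.castAdd 1 : Fin (9 + n) → Fin (9 + n + 1))
    (Fin.castAdd_injective _ _) (fun q => Emp (d + 3) (Fin.append (fun i => b i + 1) m) q)
    ⟨{Q}, Set.countable_singleton _, fun R hR => by rw [Set.mem_singleton_iff.mp hR]; exact hQ0,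
      fun q hq => hQ q (hq Q rfl)⟩
  obtain ⟨T2, hT2, hT20, h2⟩ := pull_gen (ιc n) ιc_inj (fun q => Away q 3 (fun _ => 1))
    ⟨{Φ}, Set.countable_singleton _, fun R hR => by rw [Set.mem_singleton_iff.mp hR]; exact hΦ0,
      fun q hq => hΦ q (hq Φ rfl)⟩
  obtain ⟨x, hx⟩ := Pool.Agent.helper7.SC.exists_avoid (T1 ∪ T2) (hT1.union hT2) (by
    rintro R (hR | hR)
    · exact hT10 R hR
    · exact hT20 R hR)
  obtain ⟨q, hqx⟩ : ∃ q : Fin (9 + n + 1) → Fin 2 → ℂ, ∀ R ∈ T1 ∪ T2, evP q R ≠ 0 :=
    ⟨fun i l => x (i, l), fun R hR => hx R hR⟩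
  have hE := h1 q (fun R hR => hqx R (Or.inl hR))
  obtain ⟨G, hG1, hG2, hG3⟩ := h2 q (fun R hR => hqx R (Or.inr hR))
  simp only [ιc_left] at hG2
  have hG0 : G ≠ 0 := by
    rintro rfl
    exact hG3 (map_zero _)
  refine E_of_emp (p := fun i => q (Fin.castAdd 1 i)) ?_
  intro F hF hmem
  by_contra hF0
  have h3 := hE (F * G) (by
    rw [wdeg_mul 1 hF0 hG0]
    omega) (by
    intro i
    induction i using Fin.addCases with
    | left i =>
      have h4 := hmem (Fin.castAdd n i)
      rw [Fin.append_left] at h4 ⊢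
      rw [pow_add]
      exact Ideal.mul_mem_mul h4 (hG2 i)
    | right i =>
      have h4 := hmem (Fin.natAdd 9 i)
      rw [Fin.append_right] at h4 ⊢
      exact Ideal.mul_mem_right _ _ h4)
  exact (mul_ne_zero hF0 hG0) h3

theorem cubKs {d : ℕ} {b : Fin 9 → ℕ} {ms : Multiset ℕ} (k : ℕ)
    (h : E (d + 3 * k) (Bm (fun i => b i + k) + ms)) : E d (Bm b + ms) := by
  induction k with
  | zero => simpa using h
  | succ k ih =>
    apply ih
    apply cubK
    have e1 : d + 3 * (k + 1) = d + 3 * k + 3 := by ring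
    rw [e1] at h
    exact h

end Pool.Agent.helper25.SXQ
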