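import Pool.Agent.helper25.SXQ.FinM
import Pool.Agent.helper25.SXQ.CubK

set_option autoImplicit false

/-!
# Module AllB: all standard systems (`exactAllQ`)

Let `C0` be the constant of `exactMQ j`, `C = C0 + 400`. Second alternative, `q = 3 d - ∑ b`,
`400 q ≤ q Y ≤ 18 N`, `2 C(d+2,2) - 2 cd (Bm b) = N + q + 2`.
If `2 cd ms ≤ N + q + 2` then `cd ms ≤ N` (or `q = 0`, `cd ms ≤ 1`, impossible): first alternative.
Otherwise, `q ≥ 1`: `k = (2 cd ms - (N + q + 2)) / (2 q)`: `exactMQ` for `(d + 3 k; b + k)`,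
`N_k = N + 2 k q`, and `cubKs`. `q = 0`: `N = 0`, `b = d / 3` and `nineC`.
-/

namespace Pool.Agent.helper25.SXQ

open MvPolynomial Pool.Agent.helper5.NBS Pool.Agent.helper89.Segre Pool.Agent.SH9
  Pool.Agent.helper25.ST Pool.Agent.helper25.SX Pool.Agent.helper25.SXN

/-- emptiness is monotone in the multiplicities -/
lemma E_mono_mult {d n : ℕ} {m m' : Fin n → ℕ} (h : E d (Finset.univ.val.map m))
    (hm : ∀ i, m i ≤ m' i) : E d (Finset.univ.val.map m') := by
  obtain ⟨Q, hQ0, hQ⟩ := h.generic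
  obtain ⟨x, hx⟩ := Pool.Agent.helper7.SC.exists_avoid {Q} (Set.countable_singleton _)
    (fun R hR => by rw [Set.mem_singleton_iff.mp hR]; exact hQ0)
  have hE := hQ (fun i l => x (i, l)) (hx Q rfl)
  refine E_of_emp (p := fun i l => x (i, l)) ?_
  intro F hF hmem
  exact hE F hF (fun i => Ideal.pow_le_pow_right (hm i) (hmem i))

lemma E_prop {k μ : ℕ} (hμ : 1 ≤ μ) : E (3 * k) (Bm (fun _ => k) + {μ}) := by
  have h1 : E (3 * k) (Finset.univ.val.map (Fin.append (fun _ : Fin 9 => k)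
      (fun _ : Fin 1 => 1))) := by
    rw [map_append']
    have h2 : Bm (fun _ : Fin 9 => k) = Multiset.replicate 9 k := by
      rw [Bm, Multiset.map_const']
      simp
    have h3 : (Finset.univ : Finset (Fin 1)).val.map (fun _ : Fin 1 => 1) =
        Multiset.replicate 1 1 := by
      rw [Multiset.map_const']
      simp
    rw [h2, h3]
    exact nineC k
  have h2 := E_mono_mult (m' := Fin.append (fun _ : Fin 9 => k) (fun _ : Fin 1 => μ)) h1 (by
    intro i
    induction i using Fin.addCases with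
    | left i => rw [Fin.append_left, Fin.append_left]
    | right i => rw [Fin.append_right, Fin.append_right]; exact hμ)
  rw [map_append'] at h2
  have h3 : (Finset.univ : Finset (Fin 1)).val.map (fun _ : Fin 1 => μ) = {μ} := by
    rw [Multiset.map_const']
    simp
  rwa [h3] at h2

lemma q_zero {d N : ℕ} {b : Fin 9 → ℕ} (hN : ∑ i, b i ^ 2 + N = d ^ 2)
    (hq : ∑ i, b i = 3 * d) : ∃ k, d = 3 * k ∧ b = fun _ => k := by
  have e1 : ∑ i, (3 * (b i : ℤ) - d) ^ 2 =
      9 * ∑ i, (b i : ℤ) ^ 2 - 6 * d * ∑ i, (b i : ℤ) + 9 * (d : ℤ) ^ 2 := by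
    have h5 : ∀ i : Fin 9, (3 * (b i : ℤ) - d) ^ 2 =
        9 * (b i : ℤ) ^ 2 - 6 * d * b i + (d : ℤ) ^ 2 := by
      intro i
      ring
    rw [Finset.sum_congr rfl fun i _ => h5 i, Finset.sum_add_distrib,
      Finset.sum_sub_distrib, ← Finset.mul_sum, ← Finset.mul_sum]
    simp
  have e2 : ∑ i, (b i : ℤ) = 3 * d := by exact_mod_cast hq
  have e3 : ∑ i, (b i : ℤ) ^ 2 ≤ (d : ℤ) ^ 2 := by
    have : ∑ i, b i ^ 2 ≤ d ^ 2 := by omega
    exact_mod_cast this
  have e4 : ∑ i, (3 * (b i : ℤ) - d) ^ 2 ≤ 0 := by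
    rw [e1, e2]
    nlinarith
  have e5 : ∑ i, (3 * (b i : ℤ) - d) ^ 2 = 0 :=
    le_antisymm e4 (Finset.sum_nonneg fun i _ => sq_nonneg _)
  have e6 : ∀ i, 3 * (b i : ℤ) = d := by
    intro i
    have h6 := (Finset.sum_eq_zero_iff_of_nonneg (fun i _ => sq_nonneg _)).mp e5 i
      (Finset.mem_univ i)
    have h7 : 3 * (b i : ℤ) - d = 0 := pow_eq_zero_iff (two_ne_zero) |>.mp h6
    linarith
  have e7 : ∀ i, 3 * b i = d := fun i => by exact_mod_cast e6 i
  refine ⟨b 0, (e7 0).symm, ?_⟩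
  funext i
  have := e7 i
  have := e7 0
  omega

theorem exactAllQ (j : ℕ) : ∃ C : ℕ, ∀ (d M Y N : ℕ) (b : Fin 9 → ℕ) (ms : Multiset ℕ),
    (∀ μ ∈ ms, μ ≤ M) → (∀ i, b 8 ≤ b i) →
    (∀ i j k, i ≠ j → j ≠ k → i ≠ k → b i + b j + b k ≤ d) →
    (∀ i, i ≠ 8 → b i + Y ≤ d) → ∑ i, b i ^ 2 + N = d ^ 2 → C * (M + 1) ≤ Y →
    (C * (M + 1) ^ (5 * 9 ^ j + 1) ≤ N ^ (2 * 9 ^ j) ∨
      C * (M + 1) ^ (5 * 9 ^ j + 1) ≤ cd ms ^ (2 * 9 ^ j)) →
    Good ℂ (tri d) (Bm b + ms) (min (cd (Bm b) + cd ms) (tri d).card) := by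
  obtain ⟨C0, hC0⟩ := exactMQ j
  refine ⟨C0 + 400, ?_⟩
  intro d M Y N b ms hM hmin h3 h2 hN hY hor
  have hY0 : C0 * (M + 1) ≤ Y :=
    (Nat.mul_le_mul_right (M + 1) (Nat.le_add_right C0 400)).trans hY
  have hY1 : 400 ≤ Y := le_trans (Nat.le_add_left 400 C0)
    (le_trans (Nat.le_mul_of_pos_right _ (Nat.succ_pos M)) hY)
  rcases hor with hor | hor
  · exact hC0 d M Y N b ms hM hmin h3 h2 hN hY0
      ((Nat.mul_le_mul_right _ (Nat.le_add_right C0 400)).trans hor)
  · have hor0 : C0 * (M + 1) ^ (5 * 9 ^ j + 1) ≤ cd ms ^ (2 * 9 ^ j) :=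
      (Nat.mul_le_mul_right _ (Nat.le_add_right C0 400)).trans hor
    have hms2 : 2 ≤ cd ms := by
      by_contra hcon
      have h4 : cd ms ^ (2 * 9 ^ j) ≤ 1 ^ (2 * 9 ^ j) := Nat.pow_le_pow_left (by omega) _
      rw [one_pow] at h4
      have h5 : 1 ≤ (M + 1) ^ (5 * 9 ^ j + 1) := Nat.one_le_pow _ _ (by omega)
      have h6 : (C0 + 400) * 1 ≤ (C0 + 400) * (M + 1) ^ (5 * 9 ^ j + 1) :=
        Nat.mul_le_mul_left _ h5
      omega
    obtain ⟨hs3, -⟩ := std_three h3
    obtain ⟨q, hq⟩ : ∃ q, ∑ i, b i + q = 3 * d := ⟨3 * d - ∑ i, b i, by omega⟩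
    have hqN : 400 * q ≤ 18 * N := by
      have h4 := std_NQ hmin h3 h2 hN hq
      have h5 : q * 400 ≤ q * Y := Nat.mul_le_mul_left _ hY1
      omega
    have htri : ∀ e : ℕ, 2 * (tri e).card = e ^ 2 + 3 * e + 2 := by
      intro e
      rw [card_tri, two_choose]
      ring
    have hB := two_cd_Bm b
    have ht := htri d
    rcases Nat.eq_zero_or_pos q with hq0 | hq0
    · rw [hq0, add_zero] at hq
      obtain ⟨k, rfl, rfl⟩ := q_zero hN hq
      have h7 : ∃ μ ∈ ms, 1 ≤ μ := by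
        by_contra hcon
        push Not at hcon
        have h8 : cd ms = 0 := by
          rw [cd, Multiset.sum_eq_zero]
          intro x hx
          obtain ⟨μ, hμ, rfl⟩ := Multiset.mem_map.mp hx
          have : μ = 0 := by have := hcon μ hμ; omega
          rw [this]
          decide
        omega
      obtain ⟨μ, hμ, hμ1⟩ := h7
      obtain ⟨rest, rfl⟩ := Multiset.exists_cons_of_mem hμ
      have hE := (E_prop (k := k) hμ1).add rest
      have he : Bm (fun _ => k) + {μ} + rest = Bm (fun _ => k) + (μ ::ₘ rest) := by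
        rw [add_assoc, Multiset.singleton_add]
      rw [he] at hE
      have h8 : 2 * cd (Bm fun _ => k) = 9 * k ^ 2 + 9 * k := by
        rw [hB]
        simp
      have h9 : 2 * (tri (3 * k)).card = 9 * k ^ 2 + 9 * k + 2 := by
        rw [ht]
        ring
      have h10 : (tri (3 * k)).card ≤ cd (Bm fun _ => k) + cd (μ ::ₘ rest) := by
        clear hB ht hN hq
        omega
      rw [min_eq_right h10]
      exact hE
    · rcases Nat.lt_or_ge (N + q + 2) (2 * cd ms) with hc | hc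
      · rw [min_eq_right (by omega)]
        obtain ⟨x, hx⟩ := Nat.exists_eq_add_of_le hc.le
        obtain ⟨k, hk⟩ : ∃ k, k = x / (2 * q) := ⟨_, rfl⟩
        have k1 : 2 * q * k ≤ x := by rw [hk]; exact Nat.mul_div_le _ _
        have k2 : x < 2 * q * k + 2 * q := by
          have := Nat.lt_mul_div_succ x (show 0 < 2 * q by omega)
          rw [← hk, mul_add, mul_one] at this
          exact this
        have e1 := sum_add_sq b k
        have e2 := sum_add_one b k
        have e3 : (d + 3 * k) ^ 2 = d ^ 2 + 2 * k * (3 * d) + 9 * k ^ 2 := by ring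
        have e4 : 2 * k * (∑ i, b i + q) = 2 * k * ∑ i, b i + 2 * q * k := by ring
        rw [← hq, e4] at e3
        have hNk : ∑ i, (b i + k) ^ 2 + (N + 2 * q * k) = (d + 3 * k) ^ 2 := by omega
        have hle : cd ms ≤ N + 2 * q * k := by omega
        have hG := hC0 (d + 3 * k) M Y (N + 2 * q * k) (fun i => b i + k) ms hM
          (fun i => Nat.add_le_add_right (hmin i) k)
          (fun i j l hij hjl hil => by have := h3 i j l hij hjl hil; omega)
          (fun i hi => by have := h2 i hi; omega) hNk hY0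
          (hor0.trans (Nat.pow_le_pow_left hle _))
        have hBk := two_cd_Bm (fun i => b i + k)
        have htk := htri (d + 3 * k)
        rw [min_eq_right (by omega)] at hG
        exact cubKs k hG
      · exact hC0 d M Y N b ms hM hmin h3 h2 hN hY0
          (hor0.trans (Nat.pow_le_pow_left (by omega) _))

end Pool.Agent.helper25.SXQ
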