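import Pool.Agent.helper25.SXN.Inherit

set_option autoImplicit false

/-!
# Project SXQ (MP_cfebfb_ag): nine arbitrary points, all Cremona standard systems. Definitions.

Compare SXN: the degree `3 d - ∑ b = q` on the anticanonical class of the nine big points takes the place of
`d` in the error terms. `NefTQ`: nefness of `(d + 3 k; b + k, v)` for all `k`.
-/

namespace Pool.Agent.helper25.SXQ

open MvPolynomial Pool.Agent.helper5.NBS Pool.Agent.helper89.Segre Pool.Agent.SH9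
  Pool.Agent.helper25.ST Pool.Agent.helper25.SXN

/-- the nefness needed for systems of degree `d` with big points `b` and other multiplicities
less than `W` -/
def NefTQ (d : ℕ) (b : Fin 9 → ℕ) (W Δ : ℕ) : Prop :=
  ∀ (k m : ℕ) (v : Fin m → ℕ), 0 < m → (∀ i, v i ≤ W) →
    ∑ i, (b i + k) ^ 2 + ∑ i, v i ^ 2 + Δ ≤ (d + 3 * k) ^ 2 →
      NefP (d + 3 * k) (Fin.append (fun i => b i + k) v)

/-- nefness of level given by `K` and the condition `c W Δ N`, `N = D² - ∑ b²`, `q = 3 D - ∑ b` -/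
def LevQ (K : ℕ) (c : ℕ → ℕ → ℕ → Prop) : Prop :=
  ∀ (D X W Δ N q m : ℕ) (b : Fin 9 → ℕ) (v : Fin m → ℕ), 0 < m → 1 ≤ W → K * W ≤ X → Pos D X b →
    ∑ i, b i ^ 2 + N = D ^ 2 → ∑ i, b i + q = 3 * D → 2 * (X * q) ≤ N →
    2 * X ^ 2 ≤ N → c W Δ N →
    (∀ i, v i ≤ W) → ∑ i, v i ^ 2 + Δ ≤ N → NefP D (Fin.append b v)

lemma sum_add_sq (b : Fin 9 → ℕ) (k : ℕ) :
    ∑ i, (b i + k) ^ 2 = ∑ i, b i ^ 2 + 2 * k * ∑ i, b i + 9 * k ^ 2 := by
  have h : ∀ i : Fin 9, (b i + k) ^ 2 = b i ^ 2 + 2 * k * b i + k ^ 2 := by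
    intro i
    ring
  rw [Finset.sum_congr rfl fun i _ => h i, Finset.sum_add_distrib,
    Finset.sum_add_distrib, ← Finset.mul_sum]
  simp

lemma sum_add_one (b : Fin 9 → ℕ) (k : ℕ) : ∑ i, (b i + k) = ∑ i, b i + 9 * k := by
  rw [Finset.sum_add_distrib]
  simp

theorem pos_upK {e X : ℕ} {β : Fin 9 → ℕ} (h : Pos e X β) (k : ℕ) :
    Pos (e + 3 * k) X (fun i => β i + k) := by
  induction k with
  | zero => simpa using h
  | succ k ih =>
    have h1 := pos_up ih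
    have e1 : e + 3 * (k + 1) = e + 3 * k + 3 := by ring
    rw [e1]
    exact h1

/-- the anticanonical degree of a class close to `(D; b)` (compare `deg_real`) -/
theorem degK_real {D e N NF f mm q p : ℝ} {b β : Fin 9 → ℝ} (hD : 0 ≤ D) (he : 0 ≤ e)
    (hN : ∑ i, b i ^ 2 + N = D ^ 2) (hN0 : 0 < N) (hNF : ∑ i, β i ^ 2 + NF = e ^ 2)
    (hNF0 : 0 < NF) (hf : ∑ i, b i * β i + f = D * e) (hfN : f ^ 2 ≤ N * (NF + mm))
    (hmm : 1000 * mm ≤ NF) (hq : ∑ i, b i + q = 3 * D) (hp : ∑ i, β i + p = 3 * e)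
    (hq0 : 0 ≤ q) (hp0 : 0 ≤ p) : 100 * (p ^ 2 * N) ≤ 121 * (NF * q ^ 2) := by
  obtain ⟨hf0, hrev⟩ := rev_cs hD he hN hN0.le hNF hNF0.le hf
  have hlor := lorentz (E := 3) (c := 0) (a := q) (φ := p) (γ := fun _ => 1) hN hN0 hNF
    (by norm_num) (by simp; linarith) hf (by simp; linarith)
  set r := Real.sqrt (N * NF) with hr
  have hNNF : 0 ≤ N * NF := mul_nonneg hN0.le hNF0.le
  have hr0 : 0 ≤ r := Real.sqrt_nonneg _
  have hr2 : r ^ 2 = N * NF := Real.sq_sqrt hNNF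
  have h1 : 1000 * (f ^ 2 - N * NF) ≤ r ^ 2 := by
    rw [hr2]
    have : N * (1000 * mm) ≤ N * NF := mul_le_mul_of_nonneg_left hmm hN0.le
    nlinarith [this, hfN]
  have hf1 : f ≤ 1.001 * r := by
    have h2 : f ^ 2 ≤ (1.001 * r) ^ 2 := by nlinarith [sq_nonneg r]
    exact (abs_le.1 (abs_le_of_sq_le_sq h2 (by positivity))).2
  have h3 : (p * N - q * f) ^ 2 ≤ (0.04 * (r * q)) ^ 2 := by
    refine hlor.trans ?_
    have hA : f ^ 2 - N * NF ≤ r ^ 2 / 1000 := by linarith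
    calc (f ^ 2 - N * NF) * (q ^ 2 - N * 0) = (f ^ 2 - N * NF) * q ^ 2 := by ring
      _ ≤ r ^ 2 / 1000 * q ^ 2 := mul_le_mul_of_nonneg_right hA (sq_nonneg q)
      _ ≤ (0.04 * (r * q)) ^ 2 := by
          have : 0 ≤ r ^ 2 * q ^ 2 := by positivity
          nlinarith [this]
  have h4 : p * N - q * f ≤ 0.04 * (r * q) :=
    (abs_le.1 (abs_le_of_sq_le_sq h3 (by positivity))).2
  have h5 : p * N ≤ 1.1 * (r * q) := by
    have h6 : q * f ≤ q * (1.001 * r) := mul_le_mul_of_nonneg_left hf1 hq0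
    have h7 : 0 ≤ r * q := mul_nonneg hr0 hq0
    nlinarith [h4, h6, h7]
  have h6 : (p * N) ^ 2 ≤ (1.1 * (r * q)) ^ 2 :=
    pow_le_pow_left₀ (mul_nonneg hp0 hN0.le) h5 2
  have h7 : N * (100 * (p ^ 2 * N)) ≤ N * (121 * (NF * q ^ 2)) := by
    have h8 : (1.1 * (r * q)) ^ 2 = 1.21 * (N * NF) * q ^ 2 := by
      rw [← hr2]
      ring
    rw [h8] at h6
    nlinarith [h6]
  exact le_of_mul_le_mul_left h7 hN0

theorem Near.degK {D N e NF W q p : ℕ} {b β : Fin 9 → ℕ} (h : Near D b N e β NF W) (hN0 : 0 < N)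
    (hq : ∑ i, b i + q = 3 * D) (hp : ∑ i, β i + p = 3 * e) :
    100 * (p ^ 2 * N) ≤ 121 * (NF * q ^ 2) := by
  obtain ⟨f, mm, hf, hf2, hm1, hm2, -⟩ := h.near
  have hNF0 : 0 < NF := by omega
  have r1 : ∑ i, (b i : ℝ) ^ 2 + N = (D : ℝ) ^ 2 := by exact_mod_cast h.hN
  have r2 : ∑ i, (β i : ℝ) ^ 2 + NF = (e : ℝ) ^ 2 := by exact_mod_cast h.hNF
  have r3 : ∑ i, (b i : ℝ) * β i + f = (D : ℝ) * e := by exact_mod_cast hf
  have r4 : ∑ i, (b i : ℝ) + q = 3 * (D : ℝ) := by exact_mod_cast hq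
  have r5 : ∑ i, (β i : ℝ) + p = 3 * (e : ℝ) := by exact_mod_cast hp
  have := degK_real (D := (D : ℝ)) (e := e) (N := N) (NF := NF) (f := f) (mm := mm) (q := q)
    (p := p) (Nat.cast_nonneg _) (Nat.cast_nonneg _) r1 (by exact_mod_cast hN0) r2
    (by exact_mod_cast hNF0) r3 (by exact_mod_cast hf2) (by exact_mod_cast hm2) r4 r5
    (Nat.cast_nonneg _) (Nat.cast_nonneg _)
  exact_mod_cast this

theorem nefTQ_of_lev {K e X W Δ NF q : ℕ} {c : ℕ → ℕ → ℕ → Prop} {β : Fin 9 → ℕ} (hL : LevQ K c)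
    (hmono : ∀ N N', N ≤ N' → c W Δ N → c W Δ N') (hW : 1 ≤ W) (hX : K * W ≤ X)
    (hP : Pos e X β) (hNF : ∑ i, β i ^ 2 + NF = e ^ 2) (hq : ∑ i, β i + q = 3 * e)
    (hXq : 2 * (X * q) ≤ NF) (hX2 : 2 * X ^ 2 ≤ NF) (hc : c W Δ NF) : NefTQ e β W Δ := by
  intro k m v hm hv hs
  have h1 := sum_add_sq β k
  have h2 := sum_add_one β k
  have h3 : (e + 3 * k) ^ 2 = e ^ 2 + 6 * k * e + 9 * k ^ 2 := by ring
  have h4 : 2 * k * (∑ i, β i + q) = 2 * k * (3 * e) := by rw [hq]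
  have h5 : 2 * k * (∑ i, β i + q) = 2 * k * ∑ i, β i + 2 * (k * q) := by ring
  have h6 : 2 * k * (3 * e) = 6 * k * e := by ring
  have hle : NF ≤ NF + 2 * (k * q) := Nat.le_add_right _ _
  have hN' : ∑ i, (β i + k) ^ 2 + (NF + 2 * (k * q)) = (e + 3 * k) ^ 2 := by omega
  exact hL (e + 3 * k) X W Δ (NF + 2 * (k * q)) q m (fun i => β i + k) v hm hW hX (pos_upK hP k)
    hN' (by omega) (hXq.trans hle) (hX2.trans hle) (hmono _ _ hle hc) hv (by omega)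

end Pool.Agent.helper25.SXQ
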