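import Pool.Agent.helper25.SXQ.Proc
import Pool.Agent.helper25.ST.Split

set_option autoImplicit false

/-!
# Module ProcE: the empty half, for a family with zeros and ones (`procEQ`)

`procQ`: copy of `proc` (ST/Proc.lean): `cw_gen` is applied to `rest + replicate s 1 + Bm b`
(reorder the multisets by `add_comm`, `add_assoc`, `add_left_comm`), the numbers `cd ms + s` become
`cd (Bm b) + cd ms + s`; at the end `finB` instead of `fin`.
`procEQ`: copy of `procE` (ST/ProcE.lean): `split`, `procQ` with the second alternative, `E.add`.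
-/

namespace Pool.Agent.helper25.SXQ

open MvPolynomial Pool.Agent.helper5.NBS Pool.Agent.helper89.Segre Pool.Agent.SH9
  Pool.Agent.helper25.ST Pool.Agent.helper25.SXN

theorem procEQ {d W Δ Φ A w m q : ℕ} {b : Fin 9 → ℕ} (hW : 2 ≤ W) (hΔ : 1 ≤ Δ)
    (hNef : NefTQ d b W Δ) (hq : ∑ i, b i + q = 3 * d) (hq0 : 0 < q)
    (hbC : cd (Bm b) + 3 + Δ ≤ (d + 2).choose 2)
    (hA : 3 * Φ + 3 * (Nat.sqrt (9 * W) + 1) * W ^ 2 ≤ W * A)
    (hw : 3 * A + 3 * Δ + 2 * q + 1 ≤ w) (μ : Fin m → ℕ) (hμ : ∀ i, μ i + 1 ≤ W)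
    (hΦ : 9 * ∑ i, μ i ^ 2 ≤ 4 * Φ)
    (h : (d + 1) * (d + 2) + 2 * w ≤
      ∑ i, b i ^ 2 + ∑ i, b i + ∑ i, μ i ^ 2 + ∑ i, μ i) :
    E d (Bm b + Finset.univ.val.map μ) := by
  obtain ⟨a, s, z, h1, h2, h3', h4, h5, h6, h7⟩ := split (Finset.univ.val.map μ)
  rw [Q2_map] at h5 h7
  rw [sum_map] at h7
  have hc := two_choose d
  have hB := two_cd_Bm b
  have hmem : ∀ x ∈ a, x + 1 ≤ W := by
    intro x hx
    obtain ⟨i, _, rfl⟩ := Multiset.mem_map.mp (Multiset.mem_of_le h3' hx)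
    exact hμ i
  have key : E d (Bm b + (a + Multiset.replicate s 1)) := by
    refine procQ (by omega) le_rfl hW hΔ hNef hq hq0 hbC hA hw a s
      (fun x hx => ⟨h2 x hx, hmem x hx⟩) ?_ ?_ (Or.inr ?_)
    · omega
    · omega
    · omega
  rw [h1, ← add_assoc]
  exact E.add key _

end Pool.Agent.helper25.SXQ
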