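import Pool.Agent.helper25.SXQ.Nef0
import Pool.Agent.helper25.SXB.NumUp
import Pool.Agent.helper25.SXQ.ProcE

set_option autoImplicit false

/-!
# Module Nef1: nefness of level 1 with big points (`nefQ1`)

`nefPB_of`, `numVB`, `Near.degK`, `numUpB` with `q + 2 W` and `p + 1` in place of the degrees (`p = 3 e - ∑ β`);
`Near.pos` with `X'`; `nefTQ_of_lev nefQ0` with `W'`, `Δ = 2 W'²`; `procEQ`.
-/

namespace Pool.Agent.helper25.SXQ

open MvPolynomial Pool.Agent.helper5.NBS Pool.Agent.helper89.Segre Pool.Agent.SH9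
  Pool.Agent.helper25.ST Pool.Agent.helper25.SXN

/-- `q > 0` if `N > 0` -/
lemma q_pos {e NF p : ℕ} {β : Fin 9 → ℕ} (hNF : ∑ i, β i ^ 2 + NF = e ^ 2)
    (hp : ∑ i, β i + p = 3 * e) (h0 : 0 < NF) : 0 < p := by
  rcases Nat.eq_zero_or_pos p with h | h
  · exfalso
    rw [h, add_zero] at hp
    have h1 : (∑ i, β i) ^ 2 ≤ 9 * ∑ i, β i ^ 2 := by
      have := sq_sum_le_card_mul_sum_sq (s := (Finset.univ : Finset (Fin 9))) (f := β)
      simpa using this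
    rw [hp] at h1
    have h2 : (3 * e) ^ 2 = 9 * e ^ 2 := by ring
    omega
  · exact h

lemma deg_num {N NF W q p : ℕ} (h1 : 100 * (p ^ 2 * N) ≤ 121 * (NF * q ^ 2))
    (h2 : 36 * N ≤ 49 * (NF * W ^ 2)) :
    100 * ((p + 1) ^ 2 * N) ≤ 121 * (NF * (q + 2 * W) ^ 2) := by
  obtain ⟨u, hu⟩ : ∃ u : ℝ, u = Real.sqrt N := ⟨_, rfl⟩
  obtain ⟨v, hv⟩ : ∃ v : ℝ, v = Real.sqrt NF := ⟨_, rfl⟩
  have hu0 : 0 ≤ u := by rw [hu]; exact Real.sqrt_nonneg _
  have hv0 : 0 ≤ v := by rw [hv]; exact Real.sqrt_nonneg _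
  have hu2 : u ^ 2 = N := by rw [hu]; exact Real.sq_sqrt (Nat.cast_nonneg _)
  have hv2 : v ^ 2 = NF := by rw [hv]; exact Real.sq_sqrt (Nat.cast_nonneg _)
  have r1 : (100 : ℝ) * (p ^ 2 * N) ≤ 121 * (NF * q ^ 2) := by exact_mod_cast h1
  have r2 : (36 : ℝ) * N ≤ 49 * (NF * W ^ 2) := by exact_mod_cast h2
  have rp : (0 : ℝ) ≤ p := Nat.cast_nonneg p
  have rq : (0 : ℝ) ≤ q := Nat.cast_nonneg q
  have rW : (0 : ℝ) ≤ W := Nat.cast_nonneg W
  have a1 : 10 * p * u ≤ 11 * v * q := by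
    have : (10 * p * u) ^ 2 ≤ (11 * v * q) ^ 2 := by
      calc (10 * p * u) ^ 2 = 100 * (p ^ 2 * u ^ 2) := by ring
        _ ≤ 121 * (v ^ 2 * q ^ 2) := by rw [hu2, hv2]; exact r1
        _ = (11 * v * q) ^ 2 := by ring
    exact (abs_le.mp (abs_le_of_sq_le_sq this (by positivity))).2
  have a2 : 6 * u ≤ 7 * v * W := by
    have : (6 * u) ^ 2 ≤ (7 * v * W) ^ 2 := by
      calc (6 * u) ^ 2 = 36 * u ^ 2 := by ring
        _ ≤ 49 * (v ^ 2 * W ^ 2) := by rw [hu2, hv2]; exact r2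
        _ = (7 * v * W) ^ 2 := by ring
    exact (abs_le.mp (abs_le_of_sq_le_sq this (by positivity))).2
  have a3 : 10 * (p + 1) * u ≤ 11 * v * (q + 2 * W) := by
    have : 0 ≤ v * W := mul_nonneg hv0 rW
    nlinarith
  have a4 : (10 * (p + 1) * u) ^ 2 ≤ (11 * v * (q + 2 * W)) ^ 2 :=
    pow_le_pow_left₀ (by positivity) a3 2
  have a5 : (100 : ℝ) * ((p + 1) ^ 2 * N) ≤ 121 * (NF * (q + 2 * W) ^ 2) := by
    rw [← hu2, ← hv2]
    calc (100 : ℝ) * ((p + 1) ^ 2 * u ^ 2) = (10 * (p + 1) * u) ^ 2 := by ring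
      _ ≤ (11 * v * (q + 2 * W)) ^ 2 := a4
      _ = _ := by ring
  exact_mod_cast a5

theorem nefQ1 : LevQ (10 ^ 8) (fun W Δ N => 10 ^ 10 * W ^ 4 ≤ Δ * N) := by
  intro D X W Δ N q m b v hm hW hX hP hN hq hXq hX2N hΔ hv hsq
  have hN0 : 0 < N := by
    rcases Nat.eq_zero_or_pos N with h | h
    · exfalso
      have h1 : 0 < 10 ^ 10 * W ^ 4 := by positivity
      have h2 : 10 ^ 10 * W ^ 4 ≤ Δ * N := hΔ
      rw [h, Nat.mul_zero] at h2
      omega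
    · exact h
  have hX4 : 10 ^ 4 * W ≤ X := le_trans (Nat.mul_le_mul_right W (by norm_num)) hX
  have hX2 : 100 * W ≤ X := le_trans (Nat.mul_le_mul_right W (by norm_num)) hX
  refine nefPB_of v hm hP ?_
  intro e β μ hc viol
  obtain ⟨NF, hNF0, hnear, c1, c2, c3, c4, c5⟩ := numVB hm hc hW hX4 hN hN0 hv hsq viol
  obtain ⟨p, hp⟩ : ∃ p, ∑ i, β i + p = 3 * e := ⟨3 * e - ∑ i, β i, by have := hc.three; omega⟩
  have hp0 := q_pos hnear.hNF hp hNF0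
  have hXN : X * (q + 2 * W) ≤ N := by
    have h1 : X * (100 * W) ≤ X * X := Nat.mul_le_mul_left _ hX2
    have h2 : X * (100 * W) = 100 * (X * W) := by ring
    have h3 : X * X = X ^ 2 := by ring
    have h4 : X * (q + 2 * W) = X * q + 2 * (X * W) := by ring
    omega
  obtain ⟨W', Φ, A, w', X', hW', hW4, hX', hXX, hXe, hμ, hΦ, hA, hw, hfin⟩ :=
    Pool.Agent.helper25.SXB.numUpB μ (q + 2 * W) X W Δ N NF (p + 1) hW hX hXN hN0 hNF0 hΔ
      c1 c2 c3 c4 c5 (deg_num (Near.degK hnear hN0 hq hp) c4) (by omega)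
  have hPe : Pos e X' β := hnear.pos hc.cross hP (by omega) hN0 hXX
  have hX2' : 2 * X' ^ 2 ≤ NF := by
    have h1 : N * (8 * X' ^ 2) ≤ N * NF := by
      calc N * (8 * X' ^ 2) = 2 * (4 * (X' ^ 2 * N)) := by ring
        _ ≤ 2 * (NF * X ^ 2) := Nat.mul_le_mul_left _ hXX
        _ = NF * (2 * X ^ 2) := by ring
        _ ≤ NF * N := Nat.mul_le_mul_left _ hX2N
        _ = N * NF := by ring
    have h2 := Nat.le_of_mul_le_mul_left h1 hN0
    omega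
  have hXp : 2 * (X' * p) ≤ NF := by
    have : X' * p ≤ X' * (p + 1) := Nat.mul_le_mul_left _ (by omega)
    omega
  have hNe : NefTQ e β W' (2 * W' ^ 2) :=
    nefTQ_of_lev nefQ0 (fun _ _ _ h => h) (by omega) hX' hPe hnear.hNF hp hXp hX2' le_rfl
  have e1 := two_cd_Bm β
  have e2 := two_choose e
  have e3 : (e + 1) * (e + 2) = e ^ 2 + 3 * e + 2 := by ring
  have e4 := hnear.hNF
  have hW2 : 1 ≤ W' ^ 2 := Nat.one_le_pow _ _ (by omega)
  have hw2 : 3 * A + 3 * (2 * W' ^ 2) + 2 * p + 1 ≤ w' := by omega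
  refine procEQ (q := p) hW' (by omega) hNe hp hp0 (by omega) hA hw2 μ hμ hΦ ?_
  omega

end Pool.Agent.helper25.SXQ
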