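import Pool.Agent.helper25.SXN.Std
import Pool.Agent.helper25.SXN.Inherit
import Pool.Agent.helper25.ST.Nine

set_option autoImplicit false

/-!
# Module StdQ: standard weights at nine points and one small weight are nef (`std_posQ`)

`std_posQ`: `X ≤ (D - b i) / 100`, `2 X² ≤ D² - ∑ b²`. Let `(E; γ, g)` be the type of an irreducible curve at ten
very general points. `g = 0`: `nine_lin`. `g ≥ 2`: `E² - ∑ γ² ≥ g² - g ≥ g² / 2` (Xu) and `rev_cs`. `g = 1`:
if `∑ γ = 3 E` then all `γ` are equal (`∑ γ² ≤ E²`), excluded by `nineC`. Otherwise `∑ γ + 1 ≤ 3 E` and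
`eight_pos` with `X - b 8`.
`std_NQ`: `q Y ≤ 18 N` with `q = 3 D - ∑ b`, `Y ≤ D - b i`.
-/

namespace Pool.Agent.helper25.SXQ

open MvPolynomial Pool.Agent.helper5.NBS Pool.Agent.helper89.Segre Pool.Agent.SH9
  Pool.Agent.helper25.ST Pool.Agent.helper22.SC Pool.Agent.helper7.SC Pool.Agent.helper25.SXN

open Pool.Agent.helper25.ST.Nef0aux in
/-- no curve of degree `3 k` has multiplicity `k` at nine and `1` at the tenth very general point -/
lemma halphen_pts : ∃ T : Set (PtRing (9 + 1)), T.Countable ∧ (∀ Q ∈ T, Q ≠ 0) ∧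
    ∀ q : Fin (9 + 1) → Fin 2 → ℂ, (∀ Q ∈ T, evP q Q ≠ 0) → ∀ F : R2, Irreducible F →
      mult (q (Fin.natAdd 9 0)) F = 1 → ∀ k : ℕ, wdeg 1 F = 3 * k →
        (∀ i, mult (q (Fin.castAdd 1 i)) F = k) → False := by
  refine ⟨Set.range (fun x : ℕ × (Fin (9 + 1) → ℕ) => Qf x.1 x.2), Set.countable_range _, ?_, ?_⟩
  · rintro Q ⟨x, rfl⟩
    exact Qf_ne _ _
  · intro q hq F hF hg k hk hi
    have hE : E (wdeg 1 F) (Finset.univ.val.map fun i => mult (q i) F) := by
      have h1 : (fun i => mult (q i) F) = Fin.append (fun _ : Fin 9 => k) (fun _ : Fin 1 => 1) := by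
        funext i
        refine Fin.addCases (m := 9) (n := 1) (fun i => ?_) (fun i => ?_) i
        · rw [Fin.append_left]
          exact hi i
        · rw [Fin.append_right, Subsingleton.elim i 0]
          exact hg
      rw [h1, map_append', hk]
      have h2 : Bm (fun _ : Fin 9 => k) = Multiset.replicate 9 k := by
        rw [Bm, Multiset.map_const']
        simp
      have h3 : (Finset.univ : Finset (Fin 1)).val.map (fun _ : Fin 1 => 1) =
          Multiset.replicate 1 1 := by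
        rw [Multiset.map_const']
        simp
      rw [h2, h3]
      exact nineC k
    have h2 := Qf_emp hE (hq _ ⟨(wdeg 1 F, fun i => mult (q i) F), rfl⟩)
    exact hF.ne_zero (h2 F le_rfl (fun i => (mem_pow_iff_le_mult hF.ne_zero).mpr le_rfl))

private lemma two_others : ∀ i : Fin 8, ∃ j l : Fin 8, i ≠ j ∧ j ≠ l ∧ i ≠ l := by
  decide

/-- the numerical part -/
lemma posQ_num {D X N Ed g : ℕ} {b γ : Fin 9 → ℕ} (hmin : ∀ i, b 8 ≤ b i)
    (h3 : ∀ i j k, i ≠ j → j ≠ k → i ≠ k → b i + b j + b k ≤ D)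
    (hm : ∀ i, i ≠ 8 → b i + 100 * X ≤ D) (hN : ∑ i, b i ^ 2 + N = D ^ 2) (hX : 2 * X ^ 2 ≤ N)
    (hle : ∀ i, γ i ≤ Ed) (hg : g ≤ Ed) (hs9 : ∑ i, γ i ≤ 3 * Ed)
    (hs8 : ∑ i : Fin 8, γ (Fin.castSucc i) + g ≤ 3 * Ed)
    (hcon : ∀ i j : Fin 8, i ≠ j → γ (Fin.castSucc i) + γ (Fin.castSucc j) + g ≤ 2 * Ed)
    (hxu : 0 < g → ∑ i, γ i ^ 2 + g ^ 2 ≤ Ed ^ 2 + g)
    (hK : g = 1 → ∀ k, Ed = 3 * k → ¬ ∀ i, γ i = k) :
    ∑ i, b i * γ i + X * g ≤ D * Ed := by
  have h0 := Pool.Agent.KB.nine_lin (D0 := D) (D := Ed) b γ h3 hle hs9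
  rcases Nat.lt_or_ge g 2 with h2 | h2
  · rcases Nat.eq_zero_or_pos g with hg0 | hg0
    · rw [hg0, mul_zero, add_zero]
      exact h0
    · have hg1 : g = 1 := by omega
      subst hg1
      have hxu1 := hxu (by norm_num)
      have hx : ∑ i, γ i ^ 2 ≤ Ed ^ 2 := by omega
      have hne : ∑ i, γ i + 1 ≤ 3 * Ed := by
        by_contra hcon2
        have hs : ∑ i, γ i = 3 * Ed := by omega
        have e1 : ∑ i, (3 * (γ i : ℤ) - Ed) ^ 2 =
            9 * ∑ i, (γ i : ℤ) ^ 2 - 6 * Ed * ∑ i, (γ i : ℤ) + 9 * (Ed : ℤ) ^ 2 := by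
          have h5 : ∀ i : Fin 9, (3 * (γ i : ℤ) - Ed) ^ 2 =
              9 * (γ i : ℤ) ^ 2 - 6 * Ed * γ i + (Ed : ℤ) ^ 2 := by
            intro i
            ring
          rw [Finset.sum_congr rfl fun i _ => h5 i, Finset.sum_add_distrib,
            Finset.sum_sub_distrib, ← Finset.mul_sum, ← Finset.mul_sum]
          simp
        have e2 : ∑ i, (γ i : ℤ) = 3 * Ed := by exact_mod_cast hs
        have e3 : ∑ i, (γ i : ℤ) ^ 2 ≤ (Ed : ℤ) ^ 2 := by exact_mod_cast hx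
        have e4 : ∑ i, (3 * (γ i : ℤ) - Ed) ^ 2 ≤ 0 := by
          rw [e1, e2]
          nlinarith
        have e5 : ∑ i, (3 * (γ i : ℤ) - Ed) ^ 2 = 0 :=
          le_antisymm e4 (Finset.sum_nonneg fun i _ => sq_nonneg _)
        have e6 : ∀ i, 3 * (γ i : ℤ) = Ed := by
          intro i
          have h6 := (Finset.sum_eq_zero_iff_of_nonneg (fun i _ => sq_nonneg _)).mp e5 i
            (Finset.mem_univ i)
          have h7 : 3 * (γ i : ℤ) - Ed = 0 := by
            exact pow_eq_zero_iff (two_ne_zero) |>.mp h6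
          linarith
        have e7 : ∀ i, 3 * γ i = Ed := fun i => by exact_mod_cast e6 i
        refine hK rfl (γ 0) (e7 0).symm fun i => ?_
        have := e7 i
        have := e7 0
        omega
      have h30 : 3 * b 8 ≤ D := by
        have a1 := h3 0 1 2 (by decide) (by decide) (by decide)
        have a2 := hmin 0
        have a3 := hmin 1
        have a4 := hmin 2
        omega
      have hcs : ∀ i : Fin 8, Fin.castSucc i ≠ 8 := fun i h => by
        have := congrArg Fin.val h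
        simp at this
        have := i.2
        omega
      have h8 := eight_pos (X := X - b 8) (D := D - 3 * b 8) (E := Ed) (g := 1)
        (red_three hmin h3) (μ := fun i => γ (Fin.castSucc i)) (fun i => by
          have h1 := hm _ (hcs i)
          rw [red_add hmin i] at h1
          -- another index to bound `red b i + 2 b 8`
          obtain ⟨j, l, h4, h5, h6⟩ := two_others i
          have h7 := red_three hmin h3 i j l h4 h5 h6
          omega)
        (fun i => hle _) hg hs8 hcon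
      have hsum : ∑ i, b i * γ i =
          ∑ i : Fin 8, red b i * γ (Fin.castSucc i) + b 8 * ∑ i, γ i := by
        rw [Fin.sum_univ_castSucc, Fin.sum_univ_castSucc (fun i => γ i),
          mul_add, Finset.mul_sum, ← add_assoc, ← Finset.sum_add_distrib]
        congr 1
        refine Finset.sum_congr rfl fun i _ => ?_
        rw [red_add hmin i]
        ring
      have h5 : b 8 * (∑ i, γ i + 1) ≤ b 8 * (3 * Ed) := Nat.mul_le_mul_left _ hne
      have h6 : (D - 3 * b 8) * Ed + b 8 * (3 * Ed) = D * Ed := by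
        have : b 8 * (3 * Ed) = 3 * b 8 * Ed := by ring
        rw [this, ← add_mul]
        congr 1
        omega
      have h7 : b 8 * (∑ i, γ i + 1) = b 8 * ∑ i, γ i + b 8 := by ring
      rw [hsum]
      simp only [mul_one] at h8 ⊢
      omega
  · have hx := hxu (by omega)
    obtain ⟨f, hf⟩ := Nat.exists_eq_add_of_le h0
    have hgg : g ≤ g ^ 2 := by nlinarith
    obtain ⟨c, hc⟩ := Nat.exists_eq_add_of_le (show ∑ i, γ i ^ 2 ≤ Ed ^ 2 by omega)
    have hc2 : g ^ 2 ≤ 2 * c := by nlinarith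
    have r1 : ∑ i, (b i : ℝ) ^ 2 + N = (D : ℝ) ^ 2 := by exact_mod_cast hN
    have r2 : ∑ i, (γ i : ℝ) ^ 2 + c = (Ed : ℝ) ^ 2 := by exact_mod_cast hc.symm
    have r3 : ∑ i, (b i : ℝ) * γ i + f = (D : ℝ) * Ed := by exact_mod_cast hf.symm
    obtain ⟨-, hrev⟩ := rev_cs (Nat.cast_nonneg D) (Nat.cast_nonneg Ed) r1 (Nat.cast_nonneg N) r2
      (Nat.cast_nonneg c) r3
    have hrevN : N * c ≤ f ^ 2 := by exact_mod_cast hrev
    have h5 : (X * g) ^ 2 ≤ f ^ 2 := by
      calc (X * g) ^ 2 = X ^ 2 * g ^ 2 := by ring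
        _ ≤ X ^ 2 * (2 * c) := Nat.mul_le_mul_left _ hc2
        _ = 2 * X ^ 2 * c := by ring
        _ ≤ N * c := Nat.mul_le_mul_right _ hX
        _ ≤ f ^ 2 := hrevN
    have h6 : X * g ≤ f := (Nat.pow_le_pow_iff_left two_ne_zero).mp h5
    omega

theorem std_posQ {D X N : ℕ} {b : Fin 9 → ℕ} (hmin : ∀ i, b 8 ≤ b i)
    (h3 : ∀ i j k, i ≠ j → j ≠ k → i ≠ k → b i + b j + b k ≤ D)
    (hm : ∀ i, i ≠ 8 → b i + 100 * X ≤ D) (hN : ∑ i, b i ^ 2 + N = D ^ 2)
    (hX : 2 * X ^ 2 ≤ N) : Pos D X b := by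
  obtain ⟨T, hTc, hTn, hT⟩ := eight_pts
  obtain ⟨T', hTc', hTn', hT'⟩ := three_pts 1
  obtain ⟨T2, hTc2, hTn2, hT2⟩ := halphen_pts
  refine ⟨T ∪ T' ∪ T2 ∪ TN one_pos 10,
    ((hTc.union hTc').union hTc2).union (TN_countable one_pos _), ?_, fun q hq F hF => ?_⟩
  · rintro Q (((hQ | hQ) | hQ) | hQ)
    · exact hTn Q hQ
    · exact hTn' Q hQ
    · exact hTn2 Q hQ
    · exact TN_ne one_pos _ Q hQ
  obtain ⟨g1, g2⟩ := hT q (fun Q hQ => hq Q (Or.inl (Or.inl (Or.inl hQ)))) F hF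
  have g3 := hT' q (fun Q hQ => hq Q (Or.inl (Or.inl (Or.inr hQ)))) F hF
  have g4 := hT2 q (fun Q hQ => hq Q (Or.inl (Or.inr hQ))) F hF
  have hV : VGN one_pos q := VGN_of one_pos (fun Q hQ => hq Q (Or.inr hQ))
  have hle : ∀ i, mult (q i) F ≤ wdeg 1 F := fun i => Nef0aux.mult_le_deg _ hF.ne_zero
  have hxu : 0 < mult (q (Fin.natAdd 9 0)) F →
      ∑ i : Fin 9, mult (q (Fin.castAdd 1 i)) F ^ 2 + mult (q (Fin.natAdd 9 0)) F ^ 2 ≤
        wdeg 1 F ^ 2 + mult (q (Fin.natAdd 9 0)) F := by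
    intro hg
    have h3 := Pool.Agent.KD.xuOne hV hF (Fin.natAdd 9 0) hg
    have h5 : ∑ i : Fin (9 + 1), mult (q i) F ^ 2 =
        ∑ i : Fin 9, mult (q (Fin.castAdd 1 i)) F ^ 2 +
          ∑ i : Fin 1, mult (q (Fin.natAdd 9 i)) F ^ 2 := Fin.sum_univ_add _
    have h6 : ∑ i : Fin (9 + 1), mult (q i) F ^ 2 ≤
      wdeg 1 F ^ 2 + mult (q (Fin.natAdd 9 0)) F := h3
    rw [h5] at h6
    have h7 : ∑ i : Fin 1, mult (q (Fin.natAdd 9 i)) F ^ 2 =
        mult (q (Fin.natAdd 9 0)) F ^ 2 := by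
      simp
    rw [h7] at h6
    exact h6
  exact posQ_num (γ := fun i => mult (q (Fin.castAdd 1 i)) F) hmin h3 hm hN hX
    (fun i => hle _) (hle _) g3 g1 g2 hxu (fun h1 k hk hi => g4 h1 k hk hi)

theorem std_NQ {D Y N q : ℕ} {b : Fin 9 → ℕ} (hmin : ∀ i, b 8 ≤ b i)
    (h3 : ∀ i j k, i ≠ j → j ≠ k → i ≠ k → b i + b j + b k ≤ D)
    (hm : ∀ i, i ≠ 8 → b i + Y ≤ D) (hN : ∑ i, b i ^ 2 + N = D ^ 2)
    (hq : ∑ i, b i + q = 3 * D) : q * Y ≤ 18 * N := by
  classical
  have hcs : ∀ i : Fin 8, Fin.castSucc i ≠ 8 := fun i h => by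
    have := congrArg Fin.val h
    simp at this
    have := i.2
    omega
  have hD3 : 3 * b 8 ≤ D := by
    have a1 := h3 0 1 2 (by decide) (by decide) (by decide)
    have a2 := hmin 0
    have a3 := hmin 1
    have a4 := hmin 2
    omega
  obtain ⟨D', rfl⟩ : ∃ D', D = 3 * b 8 + D' := ⟨D - 3 * b 8, by omega⟩
  have hr := red_three hmin h3
  rw [Nat.add_sub_cancel_left] at hr
  obtain ⟨-, e2⟩ := eight_N (Y := Y - 2 * b 8) hr (fun i => by
    have h1 := hm _ (hcs i)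
    rw [red_add hmin i] at h1
    obtain ⟨j, l, h4, h5, h6⟩ := two_others i
    have h7 := hr i j l h4 h5 h6
    omega)
  have hs1 : ∑ i, b i = ∑ i, red b i + 9 * b 8 := by
    rw [Fin.sum_univ_castSucc]
    have h1 : ∑ i : Fin 8, b (Fin.castSucc i) = ∑ i, red b i + 8 * b 8 := by
      rw [Finset.sum_congr rfl fun i _ => red_add hmin i, Finset.sum_add_distrib]
      simp
    rw [h1]
    have h3 : b (Fin.last 8) = b 8 := rfl
    rw [h3]
    ring
  have hs : ∑ i, b i ^ 2 = ∑ i, red b i ^ 2 + 2 * b 8 * ∑ i, red b i + 9 * b 8 ^ 2 := by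
    rw [Fin.sum_univ_castSucc]
    have h1 : ∑ i : Fin 8, b (Fin.castSucc i) ^ 2 =
        ∑ i, red b i ^ 2 + 2 * b 8 * ∑ i, red b i + 8 * b 8 ^ 2 := by
      rw [Finset.mul_sum, ← Finset.sum_add_distrib]
      have h2 : ∀ i : Fin 8, b (Fin.castSucc i) ^ 2 =
          red b i ^ 2 + 2 * b 8 * red b i + b 8 ^ 2 := by
        intro i
        rw [red_add hmin i]
        ring
      rw [Finset.sum_congr rfl fun i _ => h2 i, Finset.sum_add_distrib]
      simp
    rw [h1]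
    have h3 : b (Fin.last 8) = b 8 := rfl
    rw [h3]
    ring
  rw [hs] at hN
  rw [hs1] at hq
  generalize ∑ i, red b i ^ 2 = Q at *
  generalize ∑ i, red b i = S at *
  generalize b 8 = s at *
  have hqS : S + q = 3 * D' := by omega
  have h5 : 2 * s * (S + q) = 2 * s * (3 * D') := by rw [hqS]
  have h6 : Q + N = D' ^ 2 + 2 * (s * q) := by
    have e1 : (3 * s + D') ^ 2 = 9 * s ^ 2 + 6 * s * D' + D' ^ 2 := by ring
    have e3 : 2 * s * (S + q) = 2 * s * S + 2 * (s * q) := by ring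
    have e4 : 2 * s * (3 * D') = 6 * s * D' := by ring
    omega
  have h7 : q * Y ≤ q * (Y - 2 * s) + 2 * (s * q) := by
    have e1 : q * Y ≤ q * ((Y - 2 * s) + 2 * s) := Nat.mul_le_mul_left _ (by omega)
    have e2 : q * ((Y - 2 * s) + 2 * s) = q * (Y - 2 * s) + 2 * (s * q) := by ring
    omega
  have h8 : q * (Y - 2 * s) ≤ 3 * (D' * (Y - 2 * s)) := by
    have e1 : q * (Y - 2 * s) ≤ 3 * D' * (Y - 2 * s) := Nat.mul_le_mul_right _ (by omega)
    have e2 : 3 * D' * (Y - 2 * s) = 3 * (D' * (Y - 2 * s)) := by ring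
    omega
  omega

end Pool.Agent.helper25.SXQ
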