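import Pool.Agent.helper25.SXQ.FinE
import Pool.Agent.helper25.SXB.NumX
import Pool.Agent.helper25.SXQ.StdQ

set_option autoImplicit false

/-!
# Module FinM: assembly (`exactMQ`; compare SXN/FinM.lean)

`C = 100 C0 + C0 ^ (4 * 9 ^ j) + 1`, `Z = C0 (M + 1)`: `Z² ≤ N`, `q Z ≤ N` (`std_NQ`), `numXB` with `q + Z`, `Z` in
place of `d`, `Y`; `std_posQ`; regular half: `exactEQ` with `v = C - cd (Bm b) - cd ms`, `good_of_E_ones`;
empty half: `exists_sub` with `x = C - cd (Bm b)`, `exactEQ` with `v = 0`, `E.add`.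
-/

namespace Pool.Agent.helper25.SXQ

open MvPolynomial Pool.Agent.helper5.NBS Pool.Agent.helper89.Segre Pool.Agent.SH9
  Pool.Agent.helper25.ST Pool.Agent.helper25.SX Pool.Agent.helper25.SXN

/-- the number `N` is at least the square of `C0 (M + 1)` -/
lemma sq_le_N {n C0 M N : ℕ} (hn : 0 < n)
    (h : C0 ^ (4 * n) * (M + 1) ^ (5 * n + 1) ≤ N ^ (2 * n)) : (C0 * (M + 1)) ^ 2 ≤ N := by
  have h1 : ((C0 * (M + 1)) ^ 2) ^ (2 * n) ≤ N ^ (2 * n) := by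
    refine le_trans ?_ h
    have e1 : ((C0 * (M + 1)) ^ 2) ^ (2 * n) = C0 ^ (4 * n) * (M + 1) ^ (4 * n) := by
      rw [← pow_mul, mul_pow]
      have : 2 * (2 * n) = 4 * n := by ring
      rw [this]
    rw [e1]
    exact Nat.mul_le_mul_left _ (Nat.pow_le_pow_right (by omega) (by omega))
  exact (Nat.pow_le_pow_iff_left (by omega)).mp h1

theorem exactMQ (j : ℕ) : ∃ C : ℕ, ∀ (d M Y N : ℕ) (b : Fin 9 → ℕ) (ms : Multiset ℕ),
    (∀ μ ∈ ms, μ ≤ M) → (∀ i, b 8 ≤ b i) →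
    (∀ i j k, i ≠ j → j ≠ k → i ≠ k → b i + b j + b k ≤ d) →
    (∀ i, i ≠ 8 → b i + Y ≤ d) → ∑ i, b i ^ 2 + N = d ^ 2 → C * (M + 1) ≤ Y →
    C * (M + 1) ^ (5 * 9 ^ j + 1) ≤ N ^ (2 * 9 ^ j) →
    Good ℂ (tri d) (Bm b + ms) (min (cd (Bm b) + cd ms) (tri d).card) := by
  obtain ⟨C0, hC⟩ := Pool.Agent.helper25.SXB.numXB j
  refine ⟨100 * C0 + C0 ^ (4 * 9 ^ j) + 1, fun d M Y N b ms hms hmin hb3 hb2 hN hCY hCN => ?_⟩
  obtain ⟨h3, -⟩ := std_three hb3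
  obtain ⟨q, hq⟩ : ∃ q, ∑ i, b i + q = 3 * d := ⟨3 * d - ∑ i, b i, by omega⟩
  have hdY := std_NQ hmin hb3 hb2 hN hq
  obtain ⟨Z, hZ⟩ : ∃ Z, Z = C0 * (M + 1) := ⟨_, rfl⟩
  have hZY : 100 * Z ≤ Y := by
    refine le_trans ?_ hCY
    rw [hZ, ← mul_assoc]
    exact Nat.mul_le_mul_right _ (by omega)
  have hZN : Z ^ 2 ≤ N := by
    rw [hZ]
    refine sq_le_N (n := 9 ^ j) (by positivity) (le_trans ?_ hCN)
    exact Nat.mul_le_mul_right _ (by omega)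
  have hqZ : q * Z ≤ N := by
    have h4 : 100 * (q * Z) ≤ q * Y := by
      calc 100 * (q * Z) = q * (100 * Z) := by ring
        _ ≤ q * Y := Nat.mul_le_mul_left _ hZY
    omega
  have hCN2 : C0 * (M + 1) ^ (5 * 9 ^ j + 1) ≤ N ^ (2 * 9 ^ j) :=
    (Nat.mul_le_mul_right _ (by omega)).trans hCN
  have hdZ : (q + Z) * Z ≤ 4 * N := by
    have : (q + Z) * Z = q * Z + Z ^ 2 := by ring
    omega
  obtain ⟨W, A, Δ, w, K0, T0, hW, hΔ1, hWM, hWY, hWd, hWN, hΔ, hA, hw, hwN, hK, hT, hTN⟩ :=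
    hC (q + Z) M Z N hZ.ge hCN2 hdZ (by omega)
  have hWq : 10 ^ 10 * (W * q) ≤ N :=
    le_trans (Nat.mul_le_mul_left _ (Nat.mul_le_mul_left _ (Nat.le_add_right q Z))) hWd
  have hWN2 : 10 ^ 18 * W ^ 2 ≤ N := by
    calc 10 ^ 18 * W ^ 2 = 10 ^ 10 * (W * (10 ^ 8 * W)) := by ring
      _ ≤ 10 ^ 10 * (W * (q + Z)) :=
        Nat.mul_le_mul_left _ (Nat.mul_le_mul_left _ (hWY.trans (Nat.le_add_left Z q)))
      _ ≤ N := hWd
  have hw2 : 3 * A + 3 * Δ + 2 * q + 1 ≤ w := by omega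
  have hP : Pos d (10 ^ 8 * W) b := by
    refine std_posQ hmin hb3 (fun i hi => ?_) hN ?_
    · have := hb2 i hi
      omega
    · calc 2 * (10 ^ 8 * W) ^ 2 = 2 * 10 ^ 16 * W ^ 2 := by ring
        _ ≤ 10 ^ 18 * W ^ 2 := Nat.mul_le_mul_right _ (by norm_num)
        _ ≤ N := hWN2
  have hB : cd (Bm b) ≤ (d + 2).choose 2 := by
    have e1 := two_cd_Bm b
    have e2 := two_choose d
    have e3 : (d + 1) * (d + 2) = d ^ 2 + 3 * d + 2 := by ring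
    omega
  rcases Nat.le_total (cd (Bm b) + cd ms) ((d + 2).choose 2) with hc | hc
  · have hE := exactEQ (v := (d + 2).choose 2 - (cd (Bm b) + cd ms)) hms hW hΔ1 hWM hP hN hq hWq
      hWN2 hΔ hA hw2 hwN hK hT hTN (by omega) (by omega)
    rw [← add_assoc] at hE
    have hG := good_of_E_ones hE
    rw [card_tri] at hG ⊢
    rw [Nat.min_eq_left hc]
    have he : (d + 2).choose 2 - ((d + 2).choose 2 - (cd (Bm b) + cd ms)) =
        cd (Bm b) + cd ms := by omega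
    rwa [he] at hG
  · have hmsW : ∀ μ ∈ ms, μ + 1 ≤ W := by
      intro μ hμ
      have h2 := hms μ hμ
      have h3 : 1 ≤ 3 ^ j := Nat.one_le_pow _ _ (by norm_num)
      have h4 : 2 * 3 ^ j * (M + 1) = 2 * (3 ^ j * (M + 1)) := by ring
      have h5 : M + 1 ≤ 3 ^ j * (M + 1) := Nat.le_mul_of_pos_left _ h3
      omega
    obtain ⟨gs, hg, g1, g2⟩ := exists_sub (x := (d + 2).choose 2 - cd (Bm b)) hmsW (by omega)
    have hE := exactEQ (v := 0) (fun μ hμ => hms μ (Multiset.mem_of_le hg hμ)) hW hΔ1 hWM hP hN hq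
      hWq hWN2 hΔ hA hw2 hwN hK hT hTN (by omega) (by omega)
    rw [Multiset.replicate_zero, add_zero] at hE
    obtain ⟨rest, rfl⟩ := Multiset.le_iff_exists_add.mp hg
    have hQ := hE.add rest
    rw [Nat.min_eq_right (by rw [card_tri]; exact hc), ← add_assoc]
    exact hQ

end Pool.Agent.helper25.SXQ
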