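import Pool.Agent.helper25.SXQ.Defs
import Pool.Agent.helper25.SXN.NumV

set_option autoImplicit false

/-!
# Module Nef0: nefness of level 0 with big points (`nefQ0`)

`nefPB_of`; `numVB` with `Δ ≥ 2 W²`: conclusions `36 (NF Δ²) ≤ 49 (W² N)` and
`36 N ≤ 49 NF W²` give `144 NF W⁴ ≤ 36 NF Δ² ≤ 49 W² N ≤ (49² / 36) NF W⁴`, contradiction.
-/

namespace Pool.Agent.helper25.SXQ

open MvPolynomial Pool.Agent.helper5.NBS Pool.Agent.helper89.Segre Pool.Agent.SH9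
  Pool.Agent.helper25.ST Pool.Agent.helper25.SXN

theorem nefQ0 : LevQ (10 ^ 4) (fun W Δ _ => 2 * W ^ 2 ≤ Δ) := by
  intro D X W Δ N q m b v hm hW hX hP hN hq hXq hX2 hc hv hsq
  apply nefPB_of v hm hP
  intro e β μ hC viol
  exfalso
  have hc' : 2 * W ^ 2 ≤ Δ := hc
  have hW2 : 1 ≤ W ^ 2 := Nat.one_le_pow _ _ hW
  have hN0 : 0 < N := by omega
  obtain ⟨NF, hNF0, -, -, h1, -, h2, -⟩ := numVB hm hC hW hX hN hN0 hv hsq viol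
  have hΔ : 4 * (W ^ 2) ^ 2 ≤ Δ ^ 2 := by
    calc 4 * (W ^ 2) ^ 2 = (2 * W ^ 2) ^ 2 := by ring
      _ ≤ Δ ^ 2 := Nat.pow_le_pow_left hc' 2
  have h3 : 36 * (NF * (4 * (W ^ 2) ^ 2)) ≤ 49 * (W ^ 2 * N) :=
    le_trans (Nat.mul_le_mul_left _ (Nat.mul_le_mul_left _ hΔ)) h1
  have h4 : 36 * (49 * (W ^ 2 * N)) ≤ 49 * (W ^ 2 * (49 * (NF * W ^ 2))) := by
    calc 36 * (49 * (W ^ 2 * N)) = 49 * (W ^ 2 * (36 * N)) := by ring
      _ ≤ _ := Nat.mul_le_mul_left _ (Nat.mul_le_mul_left _ h2)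
  have h5 : 5184 * (NF * (W ^ 2) ^ 2) ≤ 2401 * (NF * (W ^ 2) ^ 2) := by
    calc 5184 * (NF * (W ^ 2) ^ 2) = 36 * (36 * (NF * (4 * (W ^ 2) ^ 2))) := by ring
      _ ≤ 36 * (49 * (W ^ 2 * N)) := Nat.mul_le_mul_left _ h3
      _ ≤ _ := h4
      _ = _ := by ring
  have h6 : 0 < NF * (W ^ 2) ^ 2 := by positivity
  omega

end Pool.Agent.helper25.SXQ
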